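import Pool.Agent.Lib.MP_28303a_al.TW.Graph2
import Pool.Agent.Lib.MP_28303a_al.TW.H59.Mrb

/-! # SUB: regular coherence passes to subgroups -/

set_option autoImplicit false
set_option linter.unusedSectionVars false
set_option linter.unusedVariables false

namespace Pool.Agent.NegK.TT.H91

universe u

open Matrix MonoidAlgebra
open Pool.Agent.NegK.TW

/-! ### Ring extensions with a retraction of bimodules -/

/-- A ring homomorphism `A → B` with a retraction of bimodules, flat on the right (in matrix
form). -/
structure Ext (A B : Type u) [Ring A] [Ring B] where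
  i : A →+* B
  r : B →+ A
  r_i : ∀ a, r (i a) = a
  left : ∀ a b, r (i a * b) = a * r b
  right : ∀ b a, r (b * i a) = r b * a
  flat : ∀ (m n : ℕ) (b : Fin m → B) (X : Matrix (Fin m) (Fin n) A), b ᵥ* X.map i = 0 →
    ∃ (s : Type u) (_ : Fintype s) (β : s → B) (c : Matrix s (Fin m) A), c * X = 0 ∧
      b = β ᵥ* c.map i

namespace Ext

variable {A B : Type u} [Ring A] [Ring B] (E : Ext A B)

/-- The submodule generated over `B`. -/
def ext {n : ℕ} (N : Submodule A (Fin n → A)) : Submodule B (Fin n → B) :=
  Submodule.span B {x | ∃ y ∈ N, x = fun j => E.i (y j)}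

theorem mem_ext {n : ℕ} {N : Submodule A (Fin n → A)} {y : Fin n → A} (hy : y ∈ N) :
    (fun j => E.i (y j)) ∈ E.ext N := Submodule.subset_span ⟨y, hy, rfl⟩

theorem ext_smul {n : ℕ} {N : Submodule A (Fin n → A)} {x : Fin n → B} (hx : x ∈ E.ext N) :
    ∀ b : B, (fun j => E.r (b * x j)) ∈ N := by
  refine Submodule.span_induction ?_ ?_ ?_ ?_ hx
  · rintro x ⟨y, hy, rfl⟩ b
    have : (fun j => E.r (b * E.i (y j))) = E.r b • y := funext fun j => E.right _ _
    show (fun j => E.r (b * E.i (y j))) ∈ N
    rw [this]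
    exact N.smul_mem _ hy
  · intro b
    have : (fun j : Fin n => E.r (b * (0 : Fin n → B) j)) = 0 := funext fun j => by
      rw [Pi.zero_apply, mul_zero, map_zero]; rfl
    rw [this]
    exact N.zero_mem
  · intro x y _ _ hx hy b
    have : (fun j => E.r (b * (x + y) j)) = (fun j => E.r (b * x j)) + fun j => E.r (b * y j) :=
      funext fun j => by
        show E.r (b * (x j + y j)) = _
        rw [mul_add, map_add]; rfl
    rw [this]
    exact N.add_mem (hx b) (hy b)
  · intro c x _ hx b
    have : (fun j => E.r (b * (c • x) j)) = fun j => E.r (b * c * x j) := funext fun j => by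
      show E.r (b * (c * x j)) = _
      rw [mul_assoc]
    rw [this]
    exact hx _

theorem ext_r {n : ℕ} {N : Submodule A (Fin n → A)} {x : Fin n → B} (hx : x ∈ E.ext N) :
    (fun j => E.r (x j)) ∈ N := by
  have := E.ext_smul hx 1
  simpa only [one_mul] using this

theorem mem_of_ext {n : ℕ} {N : Submodule A (Fin n → A)} {y : Fin n → A}
    (hy : (fun j => E.i (y j)) ∈ E.ext N) : y ∈ N := by
  have := E.ext_r hy
  simpa only [E.r_i] using this

/-- The extension of the row space. -/
theorem ext_range {m n : ℕ} (X : Matrix (Fin m) (Fin n) A) :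
    E.ext (LinearMap.range X.vecMulLinear) = LinearMap.range (X.map E.i).vecMulLinear := by
  apply le_antisymm
  · refine Submodule.span_le.2 ?_
    rintro x ⟨y, ⟨z, rfl⟩, rfl⟩
    refine ⟨fun l => E.i (z l), ?_⟩
    funext j
    show ((fun l => E.i (z l)) ᵥ* X.map E.i) j = E.i ((z ᵥ* X) j)
    simp only [Matrix.vecMul, dotProduct, Matrix.map_apply, map_sum, map_mul]
  · rintro x ⟨z, rfl⟩
    have h1 : (X.map E.i).vecMulLinear z = ∑ l, z l • (fun j => E.i (X l j)) := by
      funext j
      show (z ᵥ* X.map E.i) j = _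
      rw [Finset.sum_apply]
      rfl
    rw [h1]
    refine Submodule.sum_mem _ fun l _ => Submodule.smul_mem _ _ (E.mem_ext ?_)
    refine ⟨Pi.single l 1, ?_⟩
    funext j
    show (Pi.single l 1 ᵥ* X) j = X l j
    rw [Matrix.single_one_vecMul]
    rfl

/-- The extension of the kernel. -/
theorem ext_ker {m n : ℕ} (X : Matrix (Fin m) (Fin n) A) :
    E.ext (LinearMap.ker X.vecMulLinear) = LinearMap.ker (X.map E.i).vecMulLinear := by
  apply le_antisymm
  · refine Submodule.span_le.2 ?_
    rintro x ⟨y, hy, rfl⟩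
    have hy' : y ᵥ* X = 0 := hy
    show (fun l => E.i (y l)) ᵥ* X.map E.i = 0
    funext j
    have : ((fun l => E.i (y l)) ᵥ* X.map E.i) j = E.i ((y ᵥ* X) j) := by
      simp only [Matrix.vecMul, dotProduct, Matrix.map_apply, map_sum, map_mul]
    rw [this, hy', Pi.zero_apply, map_zero]
    rfl
  · intro b hb
    have hb' : b ᵥ* X.map E.i = 0 := hb
    obtain ⟨s, _, β, c, hc, rfl⟩ := E.flat m n b X hb'
    have h1 : β ᵥ* c.map E.i = ∑ l, β l • (fun j => E.i (c l j)) := by
      funext j
      rw [Finset.sum_apply]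
      rfl
    rw [h1]
    refine Submodule.sum_mem _ fun l _ => Submodule.smul_mem _ _ (E.mem_ext ?_)
    show c l ᵥ* X = 0
    have h2 : (c * X) l = c l ᵥ* X := rfl
    rw [← h2, hc]
    rfl

/-- Finite generation descends. -/
theorem fg_of_ext {n : ℕ} (N : Submodule A (Fin n → A)) (h : (E.ext N).FG) : N.FG := by
  classical
  obtain ⟨S, hS⟩ := h
  -- every element of the extension lies in the extension of a finitely generated submodule
  have key : ∀ x ∈ E.ext N, ∃ T : Submodule A (Fin n → A), T ≤ N ∧ T.FG ∧ x ∈ E.ext T := by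
    intro x hx
    refine Submodule.span_induction ?_ ?_ ?_ ?_ hx
    · rintro x ⟨y, hy, rfl⟩
      refine ⟨Submodule.span A {y}, ?_, Submodule.fg_span_singleton _, E.mem_ext ?_⟩
      · rw [Submodule.span_le, Set.singleton_subset_iff]; exact hy
      · exact Submodule.subset_span rfl
    · exact ⟨⊥, bot_le, Submodule.fg_bot, Submodule.zero_mem _⟩
    · rintro x y _ _ ⟨T, h1, h2, h3⟩ ⟨T', h1', h2', h3'⟩
      refine ⟨T ⊔ T', sup_le h1 h1', h2.sup h2', Submodule.add_mem _ ?_ ?_⟩
      · refine (Submodule.span_mono ?_) h3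
        rintro x ⟨y, hy, rfl⟩
        exact ⟨y, Submodule.mem_sup_left hy, rfl⟩
      · refine (Submodule.span_mono ?_) h3'
        rintro x ⟨y, hy, rfl⟩
        exact ⟨y, Submodule.mem_sup_right hy, rfl⟩
    · rintro c x _ ⟨T, h1, h2, h3⟩
      exact ⟨T, h1, h2, Submodule.smul_mem _ _ h3⟩
  choose! T h1 h2 h3 using key
  have hS' : ∀ x ∈ S, x ∈ E.ext N := fun x hx => hS ▸ Submodule.subset_span hx
  let U : Submodule A (Fin n → A) := S.sup T
  have hU : U.FG := Submodule.fg_finset_sup S T (fun x hx => h2 x (hS' x hx))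
  have hUN : U = N := by
    apply le_antisymm
    · exact Finset.sup_le fun x hx => h1 x (hS' x hx)
    · intro y hy
      have h4 : E.ext N ≤ E.ext U := by
        rw [← hS, Submodule.span_le]
        intro x hx
        refine (Submodule.span_mono ?_) (h3 x (hS' x hx))
        rintro x' ⟨y, hy, rfl⟩
        exact ⟨y, (Finset.le_sup (f := T) hx) hy, rfl⟩
      exact E.mem_of_ext (h4 (E.mem_ext hy))
  rw [← hUN]
  exact hU

theorem exists_matrix {n : ℕ} (N : Submodule A (Fin n → A)) (h : N.FG) :
    ∃ (m : ℕ) (X : Matrix (Fin m) (Fin n) A), N = LinearMap.range X.vecMulLinear := by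
  obtain ⟨m, X, hX⟩ := Submodule.fg_iff_exists_fin_generating_family.1 h
  refine ⟨m, X, ?_⟩
  rw [← hX]
  exact (range_vecMulLinear X).symm

theorem hasFPRes_fin {n : ℕ} {M : Type u} [AddCommGroup M] [Module A M] (h : HasFPRes A n M) :
    Module.Finite A M := by
  cases n with
  | zero => exact h.1
  | succ n =>
    obtain ⟨P, _, _, f, h1, _, h3, _⟩ := h
    exact Module.Finite.of_surjective f h3

/-- Finite resolutions descend. -/
theorem hasFPRes_of_ext (d : ℕ) : ∀ (n : ℕ) (N : Submodule A (Fin n → A)), N.FG →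
    HasFPRes B d (E.ext N) → HasFPRes A d N := by
  induction d with
  | zero =>
    intro n N hN h
    obtain ⟨h1, h2⟩ := h
    refine ⟨Module.Finite.iff_fg.2 hN, ?_⟩
    obtain ⟨m, X, rfl⟩ := exists_matrix N hN
    -- the surjections
    let f : (Fin m → A) →ₗ[A] LinearMap.range X.vecMulLinear := X.vecMulLinear.rangeRestrict
    have hF : ∀ x, (X.map E.i).vecMulLinear x ∈ E.ext (LinearMap.range X.vecMulLinear) := by
      intro x
      rw [E.ext_range]
      exact ⟨x, rfl⟩
    let F : (Fin m → B) →ₗ[B] E.ext (LinearMap.range X.vecMulLinear) :=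
      (X.map E.i).vecMulLinear.codRestrict _ hF
    have hFs : Function.Surjective F := by
      rintro ⟨x, hx⟩
      have hx' := hx
      rw [E.ext_range] at hx'
      obtain ⟨y, hy⟩ := hx'
      exact ⟨y, Subtype.ext hy⟩
    obtain ⟨s, hs⟩ := Module.projective_lifting_property F LinearMap.id hFs
    have hs' : ∀ x : E.ext (LinearMap.range X.vecMulLinear), s x ᵥ* X.map E.i = x := by
      intro x
      have := LinearMap.congr_fun hs x
      exact congrArg Subtype.val this
    let t : LinearMap.range X.vecMulLinear →ₗ[A] (Fin m → A) :=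
      { toFun := fun y => fun l => E.r (s ⟨fun j => E.i (y.1 j), E.mem_ext y.2⟩ l)
        map_add' := fun y z => by
          have : (⟨fun j => E.i ((y + z).1 j), E.mem_ext (y + z).2⟩ :
              E.ext (LinearMap.range X.vecMulLinear)) =
              ⟨fun j => E.i (y.1 j), E.mem_ext y.2⟩ + ⟨fun j => E.i (z.1 j), E.mem_ext z.2⟩ :=
            Subtype.ext (funext fun j => map_add E.i _ _)
          funext l
          show E.r (s _ l) = E.r (s _ l) + E.r (s _ l)
          rw [this, map_add, Pi.add_apply, map_add]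
        map_smul' := fun a y => by
          have : (⟨fun j => E.i ((a • y).1 j), E.mem_ext (a • y).2⟩ :
              E.ext (LinearMap.range X.vecMulLinear)) =
              E.i a • ⟨fun j => E.i (y.1 j), E.mem_ext y.2⟩ :=
            Subtype.ext (funext fun j => map_mul E.i _ _)
          funext l
          show E.r (s _ l) = a * E.r (s _ l)
          rw [this, map_smul, Pi.smul_apply, smul_eq_mul, E.left] }
    refine Module.Projective.of_split t f ?_
    refine LinearMap.ext fun y => Subtype.ext (funext fun j => ?_)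
    show (t y ᵥ* X) j = y.1 j
    have h3 : (t y ᵥ* X) j = E.r ((s ⟨fun j => E.i (y.1 j), E.mem_ext y.2⟩ ᵥ* X.map E.i) j) := by
      simp only [Matrix.vecMul, dotProduct, Matrix.map_apply, map_sum, E.right]
      rfl
    rw [h3, hs', E.r_i]
  | succ d ih =>
    intro n N hN h
    obtain ⟨m, X, rfl⟩ := exists_matrix N hN
    let f : (Fin m → A) →ₗ[A] LinearMap.range X.vecMulLinear := X.vecMulLinear.rangeRestrict
    have hF : ∀ x, (X.map E.i).vecMulLinear x ∈ E.ext (LinearMap.range X.vecMulLinear) := by
      intro x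
      rw [E.ext_range]
      exact ⟨x, rfl⟩
    let F : (Fin m → B) →ₗ[B] E.ext (LinearMap.range X.vecMulLinear) :=
      (X.map E.i).vecMulLinear.codRestrict _ hF
    have hFs : Function.Surjective F := by
      rintro ⟨x, hx⟩
      have hx' := hx
      rw [E.ext_range] at hx'
      obtain ⟨y, hy⟩ := hx'
      exact ⟨y, Subtype.ext hy⟩
    have h4 : HasFPRes B d (LinearMap.ker F) :=
      HasFPRes.syz inferInstance inferInstance F hFs h
    have h5 : LinearMap.ker F = E.ext (LinearMap.ker X.vecMulLinear) := by
      rw [E.ext_ker, LinearMap.ker_codRestrict]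
    have h6 : HasFPRes B d (E.ext (LinearMap.ker X.vecMulLinear)) := h5 ▸ h4
    have h7 : (E.ext (LinearMap.ker X.vecMulLinear)).FG :=
      Module.Finite.iff_fg.1 (hasFPRes_fin h6)
    have h8 : (LinearMap.ker X.vecMulLinear).FG := E.fg_of_ext _ h7
    have h9 : HasFPRes A d (LinearMap.ker X.vecMulLinear) := ih m _ h8 h6
    refine ⟨Fin m → A, inferInstance, inferInstance, f, inferInstance, inferInstance,
      LinearMap.surjective_rangeRestrict _, ?_⟩
    have h10 : LinearMap.ker f = LinearMap.ker X.vecMulLinear := LinearMap.ker_rangeRestrict _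
    exact h10 ▸ h9

include E in
/-- Regular coherence descends. -/
theorem regCoh (h : RegCoh B) : RegCoh A := by
  intro n N hN
  have h1 : (E.ext N).FG := by
    obtain ⟨m, X, rfl⟩ := exists_matrix N hN
    rw [E.ext_range, range_vecMulLinear]
    exact Submodule.fg_span (Set.finite_range _)
  obtain ⟨d, hd⟩ := h n (E.ext N) h1
  exact ⟨d, E.hasFPRes_of_ext d n N hN hd⟩

end Ext

/-! ### Group rings -/

section

variable {k G H : Type u} [Ring k] [Group G] [Group H] (f : G →* H) (hf : Function.Injective f)

theorem cmp_mdr_mul (a : MonoidAlgebra k G) (x : MonoidAlgebra k H) :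
    H59.cmp f hf 1 (mdr k f a * x) = a * H59.cmp f hf 1 x := by
  have key : ∀ (g : G) (c : k), H59.cmp f hf 1 (mdr k f (single g c) * x) =
      single g c * H59.cmp f hf 1 x := by
    intro g c
    ext g'
    rw [H59.cmp_coeff, mdr_single, MonoidAlgebra.coeff_single_mul_apply,
      MonoidAlgebra.coeff_single_mul_apply, H59.cmp_coeff, one_mul, one_mul, map_mul f, map_inv f]
  conv_lhs => rw [← sum_single_coeff a]
  conv_rhs => rw [← sum_single_coeff a]
  rw [map_sum, Finset.sum_mul, map_sum, Finset.sum_mul]
  exact Finset.sum_congr rfl fun g _ => key g _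

theorem cmp_mdr (a : MonoidAlgebra k G) : H59.cmp f hf 1 (mdr k f a) = a := by
  ext g
  rw [H59.cmp_coeff, one_mul]
  exact Finsupp.mapDomain_apply hf _ _

/-- The extension of group rings given by an injective homomorphism. -/
noncomputable def gext : Ext (MonoidAlgebra k G) (MonoidAlgebra k H) where
  i := mdr k f
  r := H59.cmp f hf 1
  r_i := cmp_mdr f hf
  left := cmp_mdr_mul f hf
  right := H59.cmp_mul f hf 1
  flat := by
    classical
    intro m n b X hb
    let S : Finset (H ⧸ f.range) := Finset.univ.biUnion fun i =>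
      (b i).coeff.support.image (QuotientGroup.mk : H → H ⧸ f.range)
    have hS : ∀ i a, (b i).coeff a ≠ 0 → (a : H ⧸ f.range) ∈ S := by
      intro i a ha
      refine Finset.mem_biUnion.2 ⟨i, Finset.mem_univ _, Finset.mem_image.2 ⟨a, ?_, rfl⟩⟩
      exact Finsupp.mem_support_iff.2 ha
    refine ⟨S, inferInstance, fun q => single q.1.out 1,
      fun q l => H59.cmp f hf q.1.out (b l), ?_, ?_⟩
    · funext q
      exact (H59.vecMul_iff f hf b X).1 hb q.1.out
    · funext l
      show b l = ∑ q : S, single q.1.out 1 * mdr k f (H59.cmp f hf q.1.out (b l))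
      rw [Finset.sum_coe_sort S fun q => single q.out 1 * mdr k f (H59.cmp f hf q.out (b l)),
        H59.sum_cmp f hf S (hS l)]

include hf in
/-- SUB for injective homomorphisms. -/
theorem regCoh_of_injective (h : RegCoh (MonoidAlgebra k H)) : RegCoh (MonoidAlgebra k G) :=
  (gext (k := k) f hf).regCoh h

end

/-- SUB: regular coherence of the group ring passes to subgroups. -/
theorem regCoh_sub {k Γ : Type u} [Ring k] [Group Γ] (H : Subgroup Γ)
    (h : RegCoh (MonoidAlgebra k Γ)) : RegCoh (MonoidAlgebra k H) :=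
  regCoh_of_injective H.subtype H.subtype_injective h

/-- SUB for a pair of subgroups. -/
theorem regCoh_mono {k Γ : Type u} [Ring k] [Group Γ] {H K : Subgroup Γ} (hHK : H ≤ K)
    (h : RegCoh (MonoidAlgebra k K)) : RegCoh (MonoidAlgebra k H) :=
  regCoh_of_injective (Subgroup.inclusion hHK) (Subgroup.inclusion_injective hHK) h

/-- The class of regular coherent groups is closed under subgroups. -/
theorem inRC_of_injective {G H : Type u} [Group G] [Group H] (f : G →* H)
    (hf : Function.Injective f) (h : InRC H) : InRC G :=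
  fun R _ hR => regCoh_of_injective f hf (h R hR)

theorem inRC_sub {Γ : Type u} [Group Γ] (H : Subgroup Γ) (h : InRC Γ) : InRC H :=
  inRC_of_injective H.subtype H.subtype_injective h

theorem inRC_mono {Γ : Type u} [Group Γ] {H K : Subgroup Γ} (hHK : H ≤ K) (h : InRC K) :
    InRC H :=
  inRC_of_injective (Subgroup.inclusion hHK) (Subgroup.inclusion_injective hHK) h

end Pool.Agent.NegK.TT.H91
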