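import Pool.Agent.Lib.MP_28303a_al.TT.Rows
import Pool.Agent.Lib.MP_28303a_al.TT.H91.Sub

/-! # Row SUB against the interface -/

set_option autoImplicit false

namespace Pool.Agent.NegK.TT.H91

universe u

theorem sub : SubStatement.{u} := fun _ _ h H => inRC_sub H h

end Pool.Agent.NegK.TT.H91
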