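import Mathlib

/-! # Weight valuations of Laurent polynomial rings -/

set_option autoImplicit false
set_option linter.unusedSectionVars false
set_option linter.unusedVariables false

namespace Pool.Agent.NegK.TT.H91

universe u v

section wt

variable {F : Type u} [Field F] {M : Type v} [AddCommMonoid M] (w : M →+ ℤ)

/-- The weight function. -/
noncomputable def wt (f : AddMonoidAlgebra F M) : WithZero (Multiplicative ℤ) :=
  f.coeff.support.sup fun m => WithZero.exp (-(w m))

theorem wt_lt {f : AddMonoidAlgebra F M} {c : WithZero (Multiplicative ℤ)} (hc : 0 < c) :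
    wt w f < c ↔ ∀ m ∈ f.coeff.support, WithZero.exp (-(w m)) < c :=
  Finset.sup_lt_iff hc

theorem wt_le {f : AddMonoidAlgebra F M} {c : WithZero (Multiplicative ℤ)} :
    wt w f ≤ c ↔ ∀ m ∈ f.coeff.support, WithZero.exp (-(w m)) ≤ c :=
  Finset.sup_le_iff

theorem le_wt {f : AddMonoidAlgebra F M} {m : M} (hm : m ∈ f.coeff.support) :
    WithZero.exp (-(w m)) ≤ wt w f :=
  Finset.le_sup (f := fun m => WithZero.exp (-(w m))) hm

theorem wt_zero : wt w (0 : AddMonoidAlgebra F M) = 0 := by
  rw [wt]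
  simp

theorem wt_add (f g : AddMonoidAlgebra F M) : wt w (f + g) ≤ max (wt w f) (wt w g) := by
  classical
  rw [wt_le]
  intro m hm
  rcases Finset.mem_union.1 (Finsupp.support_add hm) with h | h
  · exact (le_wt w h).trans (le_max_left _ _)
  · exact (le_wt w h).trans (le_max_right _ _)

theorem wt_neg (f : AddMonoidAlgebra F M) : wt w (-f) = wt w f := by
  rw [wt, wt]
  congr 1
  exact Finsupp.support_neg f.coeff

theorem wt_pos {f : AddMonoidAlgebra F M} (hf : f ≠ 0) : 0 < wt w f := by
  obtain ⟨m, hm⟩ := Finsupp.support_nonempty_iff.2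
    (fun h => hf (AddMonoidAlgebra.coeff_eq_zero.1 h) : f.coeff ≠ 0)
  exact lt_of_lt_of_le WithZero.exp_pos (le_wt w hm)

theorem wt_mul_le (f g : AddMonoidAlgebra F M) : wt w (f * g) ≤ wt w f * wt w g := by
  classical
  rw [wt_le]
  intro m hm
  obtain ⟨a, ha, b, hb, rfl⟩ := Finset.mem_add.1 (AddMonoidAlgebra.support_coeff_mul_subset f g hm)
  rw [map_add, neg_add, WithZero.exp_add]
  exact mul_le_mul' (le_wt w ha) (le_wt w hb)

theorem wt_single (m : M) {c : F} (hc : c ≠ 0) :
    wt w (AddMonoidAlgebra.single m c : AddMonoidAlgebra F M) = WithZero.exp (-(w m)) := by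
  rw [wt, AddMonoidAlgebra.coeff_single, Finsupp.support_single _ hc]
  simp

/-- The splitting of `f` into the part of largest value and the rest. -/
theorem exists_split {f : AddMonoidAlgebra F M} (hf : f ≠ 0) :
    ∃ a b : AddMonoidAlgebra F M, f = a + b ∧ a ≠ 0 ∧
      (∀ m ∈ a.coeff.support, WithZero.exp (-(w m)) = wt w f) ∧ wt w b < wt w f := by
  classical
  refine ⟨AddMonoidAlgebra.ofCoeff (f.coeff.filter fun m => WithZero.exp (-(w m)) = wt w f),
    AddMonoidAlgebra.ofCoeff (f.coeff.filter fun m => ¬ WithZero.exp (-(w m)) = wt w f),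
    ?_, ?_, ?_, ?_⟩
  · exact AddMonoidAlgebra.coeff_injective (Finsupp.filter_add_filter_not _ _).symm
  · have hne : f.coeff.support.Nonempty := Finsupp.support_nonempty_iff.2
      (fun h => hf (AddMonoidAlgebra.coeff_eq_zero.1 h) : f.coeff ≠ 0)
    obtain ⟨m, hm, h⟩ := Finset.exists_mem_eq_sup f.coeff.support hne
      fun m => (WithZero.exp (-(w m)) : WithZero (Multiplicative ℤ))
    intro h0
    rw [AddMonoidAlgebra.ofCoeff_eq_zero] at h0
    have h1 := DFunLike.congr_fun h0 m
    rw [Finsupp.filter_apply_pos (fun m => WithZero.exp (-(w m)) = wt w f) _ h.symm] at h1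
    exact Finsupp.mem_support_iff.1 hm h1
  · intro m hm
    rw [AddMonoidAlgebra.coeff_ofCoeff, Finsupp.support_filter] at hm
    exact (Finset.mem_filter.1 hm).2
  · rw [wt_lt w (wt_pos w hf)]
    intro m hm
    rw [AddMonoidAlgebra.coeff_ofCoeff, Finsupp.support_filter] at hm
    obtain ⟨h1, h2⟩ := Finset.mem_filter.1 hm
    exact lt_of_le_of_ne (le_wt w h1) h2

theorem wt_mul [UniqueSums M] (f g : AddMonoidAlgebra F M) :
    wt w (f * g) = wt w f * wt w g := by
  classical
  rcases eq_or_ne f 0 with rfl | hf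
  · rw [zero_mul, wt_zero, zero_mul]
  rcases eq_or_ne g 0 with rfl | hg
  · rw [mul_zero, wt_zero, mul_zero]
  refine le_antisymm (wt_mul_le w f g) (le_of_not_gt fun hlt => ?_)
  obtain ⟨a, b, hab, ha0, ha, hb⟩ := exists_split w hf
  obtain ⟨c, d, hcd, hc0, hc, hd⟩ := exists_split w hg
  have hf' := wt_pos w hf
  have hg' := wt_pos w hg
  have hac : a * c ≠ 0 := mul_ne_zero ha0 hc0
  have e1 : wt w f * wt w g ≤ wt w (a * c) := by
    obtain ⟨m, hm⟩ := Finsupp.support_nonempty_iff.2
      (fun h => hac (AddMonoidAlgebra.coeff_eq_zero.1 h) : (a * c).coeff ≠ 0)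
    obtain ⟨x, hx, y, hy, rfl⟩ :=
      Finset.mem_add.1 (AddMonoidAlgebra.support_coeff_mul_subset a c hm)
    have := le_wt w hm
    rwa [map_add, neg_add, WithZero.exp_add, ha x hx, hc y hy] at this
  have e2 : wt w (a * d) < wt w f * wt w g := by
    refine lt_of_le_of_lt (wt_mul_le w a d) ?_
    have : wt w a ≤ wt w f := (wt_le w).2 fun m hm => (ha m hm).le
    exact lt_of_le_of_lt (mul_le_mul_left this _) ((mul_lt_mul_iff_right₀ hf').2 hd)
  have e3 : wt w (b * g) < wt w f * wt w g :=
    lt_of_le_of_lt (wt_mul_le w b g) ((mul_lt_mul_iff_left₀ hg').2 hb)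
  have e4 : a * c = f * g + -(a * d + b * g) := by
    rw [hab, hcd]
    ring
  have e5 : wt w (a * c) < wt w f * wt w g := by
    rw [e4]
    refine lt_of_le_of_lt (wt_add w _ _) (max_lt hlt ?_)
    rw [wt_neg]
    exact lt_of_le_of_lt (wt_add w _ _) (max_lt e2 e3)
  exact absurd e5 (not_lt.2 e1)

/-- The weight valuation. -/
noncomputable def wtVal [UniqueSums M] :
    Valuation (AddMonoidAlgebra F M) (WithZero (Multiplicative ℤ)) where
  toFun := wt w
  map_zero' := wt_zero w
  map_one' := by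
    rw [AddMonoidAlgebra.one_def, wt_single w 0 one_ne_zero]
    simp
  map_mul' := wt_mul w
  map_add_le_max' := wt_add w

theorem wtVal_apply [UniqueSums M] (f : AddMonoidAlgebra F M) : wtVal w f = wt w f := rfl

/-- The extension of the weight valuation to the field of fractions. -/
noncomputable def wtValK [UniqueSums M] (K : Type*) [Field K] [Algebra (AddMonoidAlgebra F M) K]
    [IsFractionRing (AddMonoidAlgebra F M) K] : Valuation K (WithZero (Multiplicative ℤ)) :=
  (wtVal (F := F) w).extendToLocalization (S := nonZeroDivisors (AddMonoidAlgebra F M))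
    (fun f hf h => (wt_pos w (nonZeroDivisors.ne_zero hf)).ne' h) K

theorem wtValK_apply [UniqueSums M] (K : Type*) [Field K] [Algebra (AddMonoidAlgebra F M) K]
    [IsFractionRing (AddMonoidAlgebra F M) K] (f : AddMonoidAlgebra F M) :
    wtValK (F := F) w K (algebraMap (AddMonoidAlgebra F M) K f) = wt w f :=
  Valuation.extendToLocalization_apply_map_apply _ _ _ _

theorem wtValK_surjective [UniqueSums M] (K : Type*) [Field K] [Algebra (AddMonoidAlgebra F M) K]
    [IsFractionRing (AddMonoidAlgebra F M) K] (hw : ∃ m, w m = 1) :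
    Function.Surjective (wtValK (F := F) w K) := by
  intro z
  rcases eq_or_ne z 0 with rfl | hz
  · exact ⟨0, map_zero _⟩
  obtain ⟨m, hm⟩ := hw
  refine ⟨(algebraMap (AddMonoidAlgebra F M) K (AddMonoidAlgebra.single m 1)) ^
    (-(WithZero.log z)), ?_⟩
  rw [map_zpow₀, wtValK_apply, wt_single w _ one_ne_zero, hm, ← WithZero.exp_zsmul, smul_neg,
    smul_eq_mul, mul_one, neg_neg, WithZero.exp_log hz]

end wt

/-- VAL, for a family of weights on a monoid. -/
theorem exists_val' (F : Type u) [Field F] {M : Type v} [AddCommMonoid M] [UniqueSums M]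
    {ι : Type} (w : ι → (M →+ ℤ)) (hw : ∀ i, ∃ m, w i m = 1)
    (h0 : ∀ m, (∀ i, 0 ≤ w i m) → m = 0) (K : Type*) [Field K] [Algebra (AddMonoidAlgebra F M) K]
    [IsFractionRing (AddMonoidAlgebra F M) K] :
    ∃ v : ι → Valuation K (WithZero (Multiplicative ℤ)),
      (∀ i, Function.Surjective (v i)) ∧
      ∀ a : AddMonoidAlgebra F M, (∀ i, v i (algebraMap _ K a) ≤ 1) →
        ∃ c : F, a = AddMonoidAlgebra.single 0 c := by
  classical
  refine ⟨fun i => wtValK (F := F) (w i) K, fun i => wtValK_surjective (w i) K (hw i),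
    fun a ha => ?_⟩
  have key : ∀ m ∈ a.coeff.support, m = 0 := by
    intro m hm
    refine h0 m fun i => ?_
    have h1 := ha i
    simp only [wtValK_apply] at h1
    have h2 := (le_wt (w i) hm).trans h1
    rw [← WithZero.exp_zero, WithZero.exp_le_exp] at h2
    linarith
  refine ⟨a.coeff 0, AddMonoidAlgebra.coeff_injective ?_⟩
  rw [AddMonoidAlgebra.coeff_single]
  ext m
  rcases eq_or_ne m 0 with rfl | hm
  · rw [Finsupp.single_eq_same]
  · rw [Finsupp.single_eq_of_ne hm]
    by_contra h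
    exact hm (key m (Finsupp.mem_support_iff.2 h))

/-- The weights on `ℤⁿ × ℕᵐ`. -/
def wts (n m : ℕ) : Option (Fin n) → (((Fin n → ℤ) × (Fin m → ℕ)) →+ ℤ)
  | some i => (Pi.evalAddMonoidHom (fun _ : Fin n => ℤ) i).comp (AddMonoidHom.fst _ _) -
      ((∑ j : Fin m, (Nat.castAddMonoidHom ℤ).comp (Pi.evalAddMonoidHom (fun _ : Fin m => ℕ) j)).comp
        (AddMonoidHom.snd _ _))
  | none => -((∑ i : Fin n, Pi.evalAddMonoidHom (fun _ : Fin n => ℤ) i).comp
      (AddMonoidHom.fst _ _)) -
      ((∑ j : Fin m, (Nat.castAddMonoidHom ℤ).comp (Pi.evalAddMonoidHom (fun _ : Fin m => ℕ) j)).comp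
        (AddMonoidHom.snd _ _))

theorem wts_some (n m : ℕ) (i : Fin n) (x : (Fin n → ℤ) × (Fin m → ℕ)) :
    wts n m (some i) x = x.1 i - ∑ j, (x.2 j : ℤ) := by
  simp [wts]

theorem wts_none (n m : ℕ) (x : (Fin n → ℤ) × (Fin m → ℕ)) :
    wts n m none x = -(∑ i, x.1 i) - ∑ j, (x.2 j : ℤ) := by
  simp [wts]

/-- VAL. The field of fractions `K` of the ring `A` of polynomials in `n > 0` invertible and
`m` further variables over the field `F` has `n + 1` discrete valuations, such that the elements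
of `A` which are integral for all of them are the elements of `F`. -/
theorem exists_val (F : Type u) [Field F] (n m : ℕ) (hn : 0 < n) (K : Type v) [Field K]
    [Algebra (AddMonoidAlgebra F ((Fin n → ℤ) × (Fin m → ℕ))) K]
    [IsFractionRing (AddMonoidAlgebra F ((Fin n → ℤ) × (Fin m → ℕ))) K] :
    ∃ v : Fin (n + 1) → Valuation K (WithZero (Multiplicative ℤ)),
      (∀ i, Function.Surjective (v i)) ∧
      ∀ a : AddMonoidAlgebra F ((Fin n → ℤ) × (Fin m → ℕ)), (∀ i, v i (algebraMap _ K a) ≤ 1) →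
        ∃ c : F, a = AddMonoidAlgebra.single 0 c := by
  classical
  have hw : ∀ i, ∃ x, wts n m i x = 1 := by
    intro i
    cases i with
    | none =>
      refine ⟨(-(Pi.single (⟨0, hn⟩ : Fin n) 1), 0), ?_⟩
      rw [wts_none]
      simp
    | some i =>
      refine ⟨(Pi.single i 1, 0), ?_⟩
      rw [wts_some]
      simp
  have h0 : ∀ x, (∀ i, 0 ≤ wts n m i x) → x = 0 := by
    intro x hx
    have hc : 0 ≤ ∑ j, (x.2 j : ℤ) := Finset.sum_nonneg fun j _ => Int.natCast_nonneg _
    have h1 : ∀ i, 0 ≤ x.1 i := fun i => by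
      have := hx (some i)
      rw [wts_some] at this
      linarith
    have h2 : 0 ≤ ∑ i, x.1 i := Finset.sum_nonneg fun i _ => h1 i
    have h3 := hx none
    rw [wts_none] at h3
    have h4 : ∑ j, (x.2 j : ℤ) = 0 := by linarith
    have h5 : ∑ i, x.1 i = 0 := by linarith
    refine Prod.ext (funext fun i => ?_) (funext fun j => ?_)
    · exact (Finset.sum_eq_zero_iff_of_nonneg fun i _ => h1 i).1 h5 i (Finset.mem_univ i)
    · exact_mod_cast (Finset.sum_eq_zero_iff_of_nonneg
        fun j _ => Int.natCast_nonneg (x.2 j)).1 h4 j (Finset.mem_univ j)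
  obtain ⟨v, hv, h⟩ := exists_val' F (wts n m) hw h0 K
  refine ⟨fun i => v (finSuccEquiv n i), fun i => hv _, fun a ha => h a fun i => ?_⟩
  have := ha ((finSuccEquiv n).symm i)
  beta_reduce at this
  rwa [Equiv.apply_symm_apply] at this

end Pool.Agent.NegK.TT.H91
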