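import Pool.Agent.Lib.MP_28303a_al.TT.Sl3
import Pool.Agent.Lib.MP_28303a_al.TT.H91.Val

/-! # Torsionfree groups of matrices over Laurent polynomial rings -/

set_option autoImplicit false
set_option linter.unusedSectionVars false
set_option linter.unusedVariables false

namespace Pool.Agent.NegK.TT.H91

universe u v

open Matrix Pool.Agent.NegK.TW

/-- Elements algebraic over `ZMod p`, by polynomials with integer coefficients. -/
theorem exists_intPoly {F : Type u} [Field F] (p : ℕ) [Fact p.Prime] [Algebra (ZMod p) F]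
    (K : Type v) [Field K] (j : F →+* K) {c : F} (hc : IsAlgebraic (ZMod p) c) :
    ∃ q : Polynomial ℤ, q.map (Int.castRingHom K) ≠ 0 ∧ Polynomial.aeval (j c) q = 0 := by
  obtain ⟨q, hq0, hq⟩ := hc
  obtain ⟨Q, rfl⟩ := Polynomial.map_surjective (Int.castRingHom (ZMod p))
    ZMod.intCast_surjective q
  have e1 : Int.castRingHom K = (j.comp (algebraMap (ZMod p) F)).comp (Int.castRingHom (ZMod p)) :=
    RingHom.ext_int _ _
  have e2 : algebraMap ℤ K = j.comp ((algebraMap (ZMod p) F).comp (Int.castRingHom (ZMod p))) :=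
    RingHom.ext_int _ _
  refine ⟨Q, ?_, ?_⟩
  · rw [e1, ← Polynomial.map_map]
    exact (Polynomial.map_ne_zero_iff (j.comp (algebraMap (ZMod p) F)).injective).2 hq0
  · rw [Polynomial.aeval_def, Polynomial.eval₂_map] at hq
    rw [Polynomial.aeval_def, e2, ← Polynomial.hom_eval₂, hq, map_zero]

/-- Torsionfree subgroups of `SL₂(A)`, `A` an integral domain which contains the field `F`,
algebraic over `ZMod p`, such that `F` is the set of the elements of `A` which are integral for
three discrete valuations of the field of fractions. -/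
theorem sl2_dom (F : Type u) [Field F] (p : ℕ) [Fact p.Prime] [Algebra (ZMod p) F]
    [Algebra.IsAlgebraic (ZMod p) F] (A : Type u) [CommRing A] [IsDomain A] (j : F →+* A)
    (v : Fin 3 → Valuation (FractionRing A) (WithZero (Multiplicative ℤ)))
    (hA : ∀ a : A, (∀ i, v i (algebraMap A (FractionRing A) a) ≤ 1) → ∃ c : F, a = j c)
    (G : Type u) [Group G] (htf : TorsionFree G) (φ : G →* SpecialLinearGroup (Fin 2) A)
    (hφ : Function.Injective φ) : H19.InL G := by
  have : CharP (FractionRing A) p :=
    charP_of_injective_ringHom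
      (((algebraMap A (FractionRing A)).comp j).comp (algebraMap (ZMod p) F)).injective p
  refine sl2_ring A (FractionRing A) (algebraMap _ _) (IsFractionRing.injective _ _) p v
    (fun a ha => ?_) G htf φ hφ
  obtain ⟨c, rfl⟩ := hA a ha
  exact exists_intPoly p _ ((algebraMap A (FractionRing A)).comp j)
    (Algebra.IsAlgebraic.isAlgebraic c)

/-- Torsionfree subgroups of `SL₂` of the ring of polynomials over `F` in two invertible and `m`
further variables. -/
theorem sl2_laurent (F : Type u) [Field F] (p : ℕ) [Fact p.Prime] [Algebra (ZMod p) F]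
    [Algebra.IsAlgebraic (ZMod p) F] (m : ℕ) (G : Type u) [Group G] (htf : TorsionFree G)
    (φ : G →* SpecialLinearGroup (Fin 2) (AddMonoidAlgebra F ((Fin 2 → ℤ) × (Fin m → ℕ))))
    (hφ : Function.Injective φ) : H19.InL G := by
  obtain ⟨v, -, hv'⟩ := exists_val F 2 m two_pos
    (FractionRing (AddMonoidAlgebra F ((Fin 2 → ℤ) × (Fin m → ℕ))))
  exact sl2_dom F p _ AddMonoidAlgebra.singleZeroRingHom v hv' G htf φ hφ

end Pool.Agent.NegK.TT.H91
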